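import Mathlib

namespace Pool.Agent.Results.MP_0a1a8e_nt.SixEight

/-- `m` is antipalindromic in base `b`: `a_j + a_{n-j} = b - 1` for all digit positions `j` -/
def AP (b m : ℕ) : Prop :=
  ∀ j < (Nat.digits b m).length,
    (Nat.digits b m).getD j 0 + (Nat.digits b m).getD ((Nat.digits b m).length - 1 - j) 0 = b - 1

lemma dig (b t : ℕ) (hb : 1 < b) (ht : 0 < t) :
    Nat.digits b ((b ^ t - 1) * b ^ t) = List.replicate t 0 ++ List.replicate t (b - 1) := by
  have h1 : ∀ t, Nat.ofDigits b (List.replicate t (b - 1)) + 1 = b ^ t := by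
    intro t
    induction t with
    | zero => simp
    | succ t ih =>
      rw [List.replicate_succ, Nat.ofDigits_cons, pow_succ, ← ih]
      obtain ⟨c, rfl⟩ : ∃ c, b = c + 1 := ⟨b - 1, by omega⟩
      simp only [Nat.add_sub_cancel]
      ring
  have h0 : ∀ t, Nat.ofDigits b (List.replicate t 0) = 0 := by
    intro t
    induction t with
    | zero => simp
    | succ t ih => rw [List.replicate_succ, Nat.ofDigits_cons, ih]; simp
  have h2 : (b ^ t - 1) * b ^ t =
      Nat.ofDigits b (List.replicate t 0 ++ List.replicate t (b - 1)) := by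
    rw [Nat.ofDigits_append, h0, List.length_replicate, ← h1 t]
    simp only [Nat.add_sub_cancel]
    ring
  rw [h2]
  apply Nat.digits_ofDigits b hb
  · intro l hl
    rcases List.mem_append.1 hl with h | h <;> rw [List.eq_of_mem_replicate h] <;> omega
  · intro h
    have h3 : List.replicate t (b - 1) ≠ [] := by
      intro h4
      have := congrArg List.length h4
      simp at this
      omega
    rw [List.getLast_append_of_ne_nil _ h3, List.eq_of_mem_replicate (List.getLast_mem h3)]
    omega

lemma ap_pow (b t : ℕ) (hb : 1 < b) (ht : 0 < t) : AP b ((b ^ t - 1) * b ^ t) := by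
  intro j hj
  rw [dig b t hb ht] at hj ⊢
  simp only [List.length_append, List.length_replicate] at hj ⊢
  by_cases h : j < t
  · rw [List.getD_append _ _ _ _ (by simpa using h),
      List.getD_append_right _ _ _ _ (by simp; omega)]
    rw [List.getD_replicate _ h, List.getD_replicate _ (by simp; omega)]
    omega
  · rw [List.getD_append_right _ _ _ _ (by simp; omega),
      List.getD_append _ _ _ _ (by simp; omega)]
    rw [List.getD_replicate _ (by simp; omega), List.getD_replicate _ (by omega)]
    omega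

theorem result :
    (∃ m, 0 < m ∧ AP 6 m ∧ AP 8 m) ∧
    (∀ b₁ b₂ s t : ℕ, 2 ≤ b₁ → 2 ≤ b₂ → 0 < s → 0 < t → b₁ ^ s = b₂ ^ t →
      ∃ m, 0 < m ∧ AP b₁ m ∧ AP b₂ m) := by
  refine ⟨⟨43490045690, by norm_num, ?_, ?_⟩, ?_⟩
  · unfold AP
    decide +kernel
  · unfold AP
    decide +kernel
  · intro b₁ b₂ s t h1 h2 hs ht h
    have h3 : 1 < b₁ ^ s := Nat.one_lt_pow (by omega) (by omega)
    refine ⟨(b₁ ^ s - 1) * b₁ ^ s, Nat.mul_pos (by omega) (by omega), ap_pow b₁ s h1 hs, ?_⟩
    rw [h]
    exact ap_pow b₂ t h2 ht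

end Pool.Agent.Results.MP_0a1a8e_nt.SixEight
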